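import Pool.Agent.Lib.MP_a66ead_an.MainK

set_option autoImplicit false
set_option maxSynthPendingDepth 3

namespace Pool.Agent.Results.MP_a66ead_an.FarFromDuals

universe u v w

/-- A copy of a type, used in the proof to carry the new norm. -/
def Ren (X : Type u) : Type u := X

/-- Let `X` be a real or complex Banach space with `X** / X` infinite-dimensional and let `l` be
a real number.  Then `X` is isomorphic to a normed space `Y` (so `Y` is `X` with an equivalent
norm) such that `‖T‖ ‖T⁻¹‖ ≥ l` for every isomorphism `T` of `Y` onto an isometric dual space. -/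
theorem result {𝕜 : Type} [RCLike 𝕜] (X : Type u) [NormedAddCommGroup X] [NormedSpace 𝕜 X]
    [CompleteSpace X]
    (hX : ¬ FiniteDimensional 𝕜 (StrongDual 𝕜 (StrongDual 𝕜 X) ⧸
      LinearMap.range (NormedSpace.inclusionInDoubleDual 𝕜 X).toLinearMap)) (l : ℝ) :
    ∃ (Y : Type u) (_ : NormedAddCommGroup Y) (_ : NormedSpace 𝕜 Y) (_ : X ≃L[𝕜] Y),
      ∀ (Z : Type v) [NormedAddCommGroup Z] [NormedSpace 𝕜 Z]
        (W : Type w) [NormedAddCommGroup W] [NormedSpace 𝕜 W]
        (_ : Z ≃ₗᵢ[𝕜] StrongDual 𝕜 W) (T : Y ≃L[𝕜] Z),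
        l ≤ ‖(T : Y →L[𝕜] Z)‖ * ‖(T.symm : Z →L[𝕜] Y)‖ := by
  obtain ⟨N, ⟨a, b, ha, hb, hN⟩, h⟩ :=
    Pool.Agent.Lib.MP_a66ead_an.K.exists_far_seminorm.{u, w} X hX l
  let _ : AddCommGroup (Ren X) := inferInstanceAs (AddCommGroup X)
  let _ : Module 𝕜 (Ren X) := inferInstanceAs (Module 𝕜 X)
  let N' : AddGroupNorm (Ren X) :=
    { toAddGroupSeminorm := N.toAddGroupSeminorm
      eq_zero_of_map_eq_zero' := fun x hx => by
        have h1 : a * ‖(show X from x)‖ ≤ 0 := (hN x).1.trans hx.le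
        exact norm_le_zero_iff.1 (le_of_mul_le_mul_left (h1.trans_eq (mul_zero a).symm) ha) }
  let _ : NormedAddCommGroup (Ren X) := N'.toNormedAddCommGroup
  let _ : NormedSpace 𝕜 (Ren X) := ⟨fun c x => (map_smul_eq_mul N c x).le⟩
  let e : X ≃ₗ[𝕜] Ren X := LinearEquiv.refl 𝕜 X
  have he : ∀ x, ‖e x‖ = N x := fun _ => rfl
  refine ⟨Ren X, inferInstance, inferInstance,
    e.toContinuousLinearEquivOfBounds b a⁻¹ (fun x => (hN x).2) (fun y => ?_),
    fun Z _ _ W _ _ j T => ?_⟩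
  · exact (le_inv_mul_iff₀ ha).2 (hN y).1
  · refine h W ((e.trans T.toLinearEquiv).trans j.toLinearEquiv) _ _ (fun x => ?_) fun x => ?_
    · show ‖j (T (e x))‖ ≤ _
      rw [j.norm_map, ← he]
      exact (T : Ren X →L[𝕜] Z).le_opNorm (e x)
    · show _ ≤ _ * ‖j (T (e x))‖
      rw [j.norm_map, ← he]
      simpa using (T.symm : Z →L[𝕜] Ren X).le_opNorm (T (e x))

end Pool.Agent.Results.MP_a66ead_an.FarFromDuals
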