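import Pool.Agent.Lib.MP_a66ead_an.Q4.KT
import Pool.Agent.Lib.MP_a66ead_an.Q4.Lift
import Pool.Agent.Lib.MP_a66ead_an.Q4.Low

set_option autoImplicit false
set_option maxSynthPendingDepth 3

namespace Pool.Agent.Results.MP_a66ead_an.ThresholdThree

open Pool.Agent.Lib.MP_a66ead_an

universe u

/-- The bidual has `n` elements that are linearly independent modulo `X`, that is
`dim X** / X ≥ n`. -/
def Indep (X : Type u) [NormedAddCommGroup X] [NormedSpace ℝ X] (n : ℕ) : Prop :=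
  ∃ φ : Fin n → StrongDual ℝ (StrongDual ℝ X), ∀ (c : Fin n → ℝ) (x : X),
    (∀ f : StrongDual ℝ X, ∑ i, c i * φ i f = f x) → c = 0

/-- `X` is isomorphic to a normed space `Y` with `‖T‖ ‖T⁻¹‖ ≥ l` for every isomorphism `T` of `Y`
onto an isometric dual space. -/
def Far (X : Type u) [NormedAddCommGroup X] [NormedSpace ℝ X] (l : ℝ) : Prop :=
  ∃ (Y : Type u) (_ : NormedAddCommGroup Y) (_ : NormedSpace ℝ Y) (_ : X ≃L[ℝ] Y),
    ∀ (Z : Type u) [NormedAddCommGroup Z] [NormedSpace ℝ Z]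
      (W : Type u) [NormedAddCommGroup W] [NormedSpace ℝ W] [CompleteSpace W]
      (_ : Z ≃ₗᵢ[ℝ] StrongDual ℝ W) (T : Y ≃L[ℝ] Z),
      l ≤ ‖(T : Y →L[ℝ] Z)‖ * ‖(T.symm : Z →L[ℝ] Y)‖

/-- A copy of a type, used in the proof to carry the new norm. -/
def Ren (X : Type u) : Type u := X

variable {X : Type u} [NormedAddCommGroup X] [NormedSpace ℝ X] [CompleteSpace X] {n : ℕ} {D l : ℝ}

omit [CompleteSpace X] in
theorem order (h1 : Indep X n) (h2 : ¬ Indep X (n + 1)) :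
    FiniteDimensional ℝ (StrongDual ℝ (StrongDual ℝ X) ⧸
      LinearMap.range (NormedSpace.inclusionInDoubleDual ℝ X).toLinearMap) ∧
    Module.finrank ℝ (StrongDual ℝ (StrongDual ℝ X) ⧸
      LinearMap.range (NormedSpace.inclusionInDoubleDual ℝ X).toLinearMap) = n := by
  rw [Indep, Q3.indep_iff rfl] at h1 h2
  have hX := Module.rank_lt_aleph0_iff.1 ((not_le.1 h2).trans Cardinal.natCast_lt_aleph0)
  rw [← Module.finrank_eq_rank, Nat.cast_le] at h1 h2
  exact ⟨hX, by omega⟩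

theorem le_of_far (n0 : 1 ≤ n) (h1 : Indep X n) (h2 : ¬ Indep X (n + 1)) (hD : Q4.Bd n D)
    (h : Far X l) : l ≤ 1 + D := by
  obtain ⟨Y, _, _, e, h⟩ := h
  refine le_of_forall_pos_le_add fun ε hε => ?_
  have : CompleteSpace Y := (completeSpace_congr (e := e.toEquiv) e.isUniformEmbedding).1 ‹_›
  have D0 : 0 ≤ D := zero_le_one.trans ((Q4.att_one.mono n0).le hD)
  obtain ⟨_, hn⟩ := order (X := Y) (Q4.indep_of_equiv e h1) fun h =>
    h2 (Q4.indep_of_equiv e.symm h)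
  obtain ⟨s, s1, s2⟩ := Q4.exists_lift (Y := Y) rfl (hn ▸ n0) (hn ▸ hD) D0 hε
  obtain ⟨W, T, _, t1, t2⟩ := Q4.up rfl (by positivity) s s1 s2
  exact (h _ W (.refl ℝ _) T).trans ((mul_le_mul
    (ContinuousLinearMap.opNorm_le_bound _ zero_le_one t1)
    (ContinuousLinearMap.opNorm_le_bound _ (by positivity) t2)
    (norm_nonneg _) zero_le_one).trans_eq (by ring))

theorem far_of_att (h1 : Indep X n) (h2 : ¬ Indep X (n + 1)) (hD : Q4.Att n D) :
    Far X (1 + D) := by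
  obtain ⟨_, hn⟩ := order h1 h2
  obtain ⟨N, ⟨a, b, ha, hb, hN⟩, h⟩ := Q4.Att.low.{u} (X := X) hD hn.ge
  let _ : AddCommGroup (Ren X) := inferInstanceAs (AddCommGroup X)
  let _ : Module ℝ (Ren X) := inferInstanceAs (Module ℝ X)
  let N' : AddGroupNorm (Ren X) :=
    { toAddGroupSeminorm := N.toAddGroupSeminorm
      eq_zero_of_map_eq_zero' := fun x hx => by
        have h1 : a * ‖(show X from x)‖ ≤ 0 := (hN x).1.trans hx.le
        exact norm_le_zero_iff.1 (le_of_mul_le_mul_left (h1.trans_eq (mul_zero a).symm) ha) }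
  let _ : NormedAddCommGroup (Ren X) := N'.toNormedAddCommGroup
  let _ : NormedSpace ℝ (Ren X) := ⟨fun c x => (map_smul_eq_mul N c x).le⟩
  let e : X ≃ₗ[ℝ] Ren X := LinearEquiv.refl ℝ X
  have he : ∀ x, ‖e x‖ = N x := fun _ => rfl
  refine ⟨Ren X, inferInstance, inferInstance,
    e.toContinuousLinearEquivOfBounds b a⁻¹ (fun x => (hN x).2) (fun y => ?_),
    fun Z _ _ W _ _ _ j T => ?_⟩
  · exact (le_inv_mul_iff₀ ha).2 (hN y).1
  · refine h W ((e.trans T.toLinearEquiv).trans j.toLinearEquiv) _ _ (fun x => ?_) fun x => ?_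
    · show ‖j (T (e x))‖ ≤ _
      rw [j.norm_map, ← he]
      exact (T : Ren X →L[ℝ] Z).le_opNorm (e x)
    · show _ ≤ _ * ‖j (T (e x))‖
      rw [j.norm_map, ← he]
      simpa using (T.symm : Z →L[ℝ] Ren X).le_opNorm (T (e x))

/-- For real Banach spaces with `X** / X` of finite dimension `n ≥ 1` the supremum of the
distances of renormings to the class of dual spaces is a number `τ n` that depends on `n` only. -/
theorem result : ∃ τ : ℕ → ℝ, τ 1 = 2 ∧ τ 2 = 7 / 3 ∧ τ 3 = (3 + √5) / 2 ∧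
    25 / 9 ≤ τ 4 ∧ τ 4 ≤ 287 / 100 ∧ (∀ n, 5 ≤ n → τ n = 3) ∧
    ∀ (X : Type u) [NormedAddCommGroup X] [NormedSpace ℝ X] [CompleteSpace X] (n : ℕ),
      1 ≤ n → Indep X n → ¬ Indep X (n + 1) →
      (∀ l, l < τ n → Far X l) ∧ (∀ l, Far X l → l ≤ τ n) ∧ (n ≠ 4 → Far X (τ n)) := by
  have b0 : ∀ {n D}, Q4.Att n D → D ≤ sInf {D | Q4.Bd n D} := fun h =>
    le_csInf ⟨2, Q4.bd_two _⟩ fun _ => h.le
  have b1 : ∀ {n D}, 1 ≤ n → Q4.Bd n D → sInf {D | Q4.Bd n D} ≤ D := fun hn h =>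
    csInf_le ⟨1, fun _ => (Q4.att_one.mono hn).le⟩ h
  have e1 := le_antisymm (b1 le_rfl Q4.bd1) (b0 Q4.att_one)
  have e2 := le_antisymm (b1 one_le_two Q4.bd2) (b0 Q4.att_two)
  have e3 := le_antisymm (b1 (by norm_num) Q4.bd3) (b0 Q4.att_three)
  have e5 : ∀ n, 5 ≤ n → sInf {D | Q4.Bd n D} = 2 := fun n hn =>
    le_antisymm (b1 (by omega) (Q4.bd_two n)) (b0 (Q4.att_five.mono hn))
  refine ⟨fun n => 1 + sInf {D | Q4.Bd n D}, by linarith, by linarith, by linarith,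
    by linarith [b0 Q4.att_four], by linarith [b1 (by norm_num) Q4.bd4],
    fun n hn => by linarith [e5 n hn], fun X _ _ _ n n0 h1 h2 =>
      ⟨fun l hl => ?_, fun l hl => ?_, fun h4 => far_of_att h1 h2 ?_⟩⟩
  · rw [← add_sub_cancel 1 l]
    exact far_of_att h1 h2 (Q4.att_of_not fun h => by linarith [b1 n0 h])
  · exact sub_le_iff_le_add'.1 (le_csInf ⟨2, Q4.bd_two _⟩ fun D hD =>
      sub_le_iff_le_add'.2 (le_of_far n0 h1 h2 hD hl))
  · rcases (by omega : n = 1 ∨ n = 2 ∨ n = 3 ∨ 5 ≤ n) with rfl | rfl | rfl | h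
    · exact e1.symm ▸ Q4.att_one
    · exact e2.symm ▸ Q4.att_two
    · exact e3.symm ▸ Q4.att_three
    · exact (e5 n h).symm ▸ Q4.att_five.mono h

end Pool.Agent.Results.MP_a66ead_an.ThresholdThree
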